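import Pool.Agent.W448.FF.Kernel

set_option autoImplicit false

/-! # FF-PS1: positivity of the one-label terms -/

namespace Pool.Agent.W613.FF

open Finset Pool.Agent.W448.FF

theorem ac_lt {V : Type} (G : OG V) (u v : V) : ac G u v < 3 := by
  unfold ac
  split_ifs <;> norm_num

theorem ac_zero {V : Type} (G : OG V) (u v : V) : ac G u v = 0 ↔ ¬ G.adj u v := by
  unfold ac OG.adj
  split_ifs with h1 h2
  · simp [h1]
  · simp [h2]
  · simp [h1, h2]

theorem ac_one {V : Type} (G : OG V) (u v : V) : ac G u v = 1 ↔ G.arc u v := by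
  unfold ac
  split_ifs with h1 h2
  · simp [h1]
  · simp [h1]
  · simp [h1]

theorem ac_two {V : Type} (G : OG V) (u v : V) : ac G u v = 2 ↔ G.arc v u := by
  unfold ac
  split_ifs with h1 h2
  · simp [G.asymm _ _ h1]
  · simp [h2]
  · simp [h2]

theorem badc_iff {V : Type} (G : OG V) (a b c : V) :
    badc (ac G a b) (ac G a c) (ac G b c) = true ↔ Bad G a b c := by
  unfold badc Bad
  simp only [Bool.or_eq_true, Bool.and_eq_true, Nat.beq_eq, ac_zero, ac_one, ac_two]

section

variable {V : Type} [Fintype V]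

/-- weighted sum over two vertices -/
noncomputable def S2 (w : V → ℝ) (P : V → V → ℝ) : ℝ := ∑ b, ∑ c, w b * w c * P b c

theorem sep (w : V → ℝ) (a : V) (P Q : V → V → ℝ) :
    ∑ b, ∑ c, ∑ d, ∑ e, w a * w b * w c * w d * w e * (P b c * Q d e) =
      w a * (S2 w P * S2 w Q) := by
  have h1 : ∀ b c, ∑ d, ∑ e, w a * w b * w c * w d * w e * (P b c * Q d e) =
      w a * ((w b * w c * P b c) * S2 w Q) := by
    intro b c
    unfold S2
    rw [Finset.mul_sum, Finset.mul_sum]
    refine Finset.sum_congr rfl fun d _ => ?_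
    rw [Finset.mul_sum, Finset.mul_sum]
    refine Finset.sum_congr rfl fun e _ => ?_
    ring
  simp only [h1]
  simp only [← Finset.mul_sum, ← Finset.sum_mul]
  rfl

theorem S2_one (w : V → ℝ) (hw : ∑ v, w v = 1) : S2 w (fun _ _ => 1) = 1 := by
  unfold S2
  simp only [mul_one, ← Finset.mul_sum]
  rw [hw]
  simp only [mul_one]
  exact hw

theorem S2_bad (w : V → ℝ) (hw : ∑ v, w v = 1) (G : OG V) (a : V) :
    S2 w (fun d e => 4 - 9 * (if badc (ac G a d) (ac G a e) (ac G d e) then (1 : ℝ) else 0)) =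
      4 - 9 * bv G w a := by
  have h1 := S2_one w hw
  have h2 : bv G w a = S2 w (fun d e => if badc (ac G a d) (ac G a e) (ac G d e) then (1 : ℝ)
      else 0) := by
    unfold bv S2 bd
    refine Finset.sum_congr rfl fun d _ => Finset.sum_congr rfl fun e _ => ?_
    congr 1
    by_cases h : Bad G a d e
    · have hb := (badc_iff G a d e).mpr h
      simp [h, hb]
    · have hb : ¬ (badc (ac G a d) (ac G a e) (ac G d e) = true) :=
        fun h' => h ((badc_iff G a d e).mp h')
      simp [h, hb]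
  rw [h2]
  calc S2 w (fun d e => 4 - 9 * (if badc (ac G a d) (ac G a e) (ac G d e) then (1 : ℝ) else 0))
      = 4 * S2 w (fun _ _ => 1) - 9 * S2 w (fun d e =>
          if badc (ac G a d) (ac G a e) (ac G d e) then (1 : ℝ) else 0) := by
        unfold S2
        rw [Finset.mul_sum, Finset.mul_sum, ← Finset.sum_sub_distrib]
        refine Finset.sum_congr rfl fun d _ => ?_
        rw [Finset.mul_sum, Finset.mul_sum, ← Finset.sum_sub_distrib]
        refine Finset.sum_congr rfl fun e _ => ?_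
        ring
    _ = _ := by rw [h1, mul_one]

theorem S2_nonneg (w : V → ℝ) (hw : ∀ v, 0 ≤ w v) (P : V → V → ℝ) (hP : ∀ b c, 0 ≤ P b c) :
    0 ≤ S2 w P :=
  Finset.sum_nonneg fun b _ => Finset.sum_nonneg fun c _ =>
    mul_nonneg (mul_nonneg (hw b) (hw c)) (hP b c)

end

theorem ps1 : S_PS1 := by
  intro y off n L g hy V _ G w hw hbv
  obtain ⟨hw0, hw1⟩ := hw
  let f : V → V → V → ℕ := fun a b c => c3 (ac G a b) (ac G a c) (ac G b c)
  let T : V → V → V → ℝ := fun a d e =>
    4 - 9 * (if badc (ac G a d) (ac G a e) (ac G d e) then (1 : ℝ) else 0)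
  have hK : ∀ a b c d e, (K1 y G a b c d e : ℝ) = off * ((1 : ℝ) * 1) +
      ∑ j ∈ range n, ((L (f a b c) j : ℝ) * (L (f a d e) j : ℝ)) +
      (g (f a b c) : ℝ) * T a d e + T a b c * (g (f a d e) : ℝ) := by
    intro a b c d e
    have h := hy (ac G a b) (ac_lt _ _ _) (ac G a c) (ac_lt _ _ _) (ac G b c) (ac_lt _ _ _)
      (ac G a d) (ac_lt _ _ _) (ac G a e) (ac_lt _ _ _) (ac G d e) (ac_lt _ _ _)
    have h2 := congrArg (fun z : ℤ => (z : ℝ)) h
    simp only [Int.cast_natCast, Int.cast_add, Int.cast_mul, Int.cast_sub, Int.cast_sum,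
      Int.cast_ofNat, Int.cast_ite, Int.cast_one, Int.cast_zero] at h2
    change ((y (f a b c) (f a d e) : ℕ) : ℝ) = _
    change ((y (f a b c) (f a d e) : ℕ) : ℝ) = off + ∑ j ∈ range n,
      (L (f a b c) j : ℝ) * (L (f a d e) j : ℝ) + (g (f a b c) : ℝ) * T a d e +
      (g (f a d e) : ℝ) * T a b c at h2
    rw [h2]
    ring
  have hin : ∀ a, ∑ b, ∑ c, ∑ d, ∑ e, w a * w b * w c * w d * w e *
      (K1 y G a b c d e : ℝ) = w a * (off * (S2 w (fun _ _ => 1) * S2 w (fun _ _ => 1)) +
        ∑ j ∈ range n, (S2 w (fun b c => (L (f a b c) j : ℝ)) *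
          S2 w (fun b c => (L (f a b c) j : ℝ))) +
        S2 w (fun b c => (g (f a b c) : ℝ)) * S2 w (T a) +
        S2 w (T a) * S2 w (fun b c => (g (f a b c) : ℝ))) := by
    intro a
    have e1 : ∀ b c d e, w a * w b * w c * w d * w e * (K1 y G a b c d e : ℝ) =
        off * (w a * w b * w c * w d * w e * ((1 : ℝ) * 1)) +
        ∑ j ∈ range n, (w a * w b * w c * w d * w e *
          ((L (f a b c) j : ℝ) * (L (f a d e) j : ℝ))) +
        w a * w b * w c * w d * w e * ((g (f a b c) : ℝ) * T a d e) +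
        w a * w b * w c * w d * w e * (T a b c * (g (f a d e) : ℝ)) := by
      intro b c d e
      rw [hK, ← Finset.mul_sum]
      ring
    simp only [e1, Finset.sum_add_distrib]
    have e2 : ∑ b, ∑ c, ∑ d, ∑ e, off * (w a * w b * w c * w d * w e * ((1 : ℝ) * 1)) =
        off * (w a * (S2 w (fun _ _ => 1) * S2 w (fun _ _ => 1))) := by
      rw [← sep w a (fun _ _ => 1) (fun _ _ => 1)]
      simp only [Finset.mul_sum]
    have e3 : ∑ b, ∑ c, ∑ d, ∑ e, ∑ j ∈ range n, (w a * w b * w c * w d * w e *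
        ((L (f a b c) j : ℝ) * (L (f a d e) j : ℝ))) =
        ∑ j ∈ range n, w a * (S2 w (fun b c => (L (f a b c) j : ℝ)) *
          S2 w (fun b c => (L (f a b c) j : ℝ))) := by
      have e4 : ∀ j, w a * (S2 w (fun b c => (L (f a b c) j : ℝ)) *
          S2 w (fun b c => (L (f a b c) j : ℝ))) = ∑ b, ∑ c, ∑ d, ∑ e,
          w a * w b * w c * w d * w e * ((L (f a b c) j : ℝ) * (L (f a d e) j : ℝ)) := by
        intro j
        rw [← sep w a (fun b c => (L (f a b c) j : ℝ)) (fun b c => (L (f a b c) j : ℝ))]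
      simp only [e4]
      symm
      rw [Finset.sum_comm]
      refine Finset.sum_congr rfl fun b _ => ?_
      rw [Finset.sum_comm]
      refine Finset.sum_congr rfl fun c _ => ?_
      rw [Finset.sum_comm]
      refine Finset.sum_congr rfl fun d _ => ?_
      exact Finset.sum_comm
    rw [e2, e3, sep w a (fun b c => (g (f a b c) : ℝ)) (T a),
      sep w a (T a) (fun b c => (g (f a b c) : ℝ)), ← Finset.mul_sum]
    ring
  have hle : ∀ a, w a * off ≤ ∑ b, ∑ c, ∑ d, ∑ e, w a * w b * w c * w d * w e *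
      (K1 y G a b c d e : ℝ) := by
    intro a
    rw [hin a, S2_one w hw1]
    refine mul_le_mul_of_nonneg_left ?_ (hw0 a)
    have h1 : 0 ≤ ∑ j ∈ range n, (S2 w (fun b c => (L (f a b c) j : ℝ)) *
          S2 w (fun b c => (L (f a b c) j : ℝ))) :=
      Finset.sum_nonneg fun j _ => mul_self_nonneg _
    have h2 : 0 ≤ S2 w (T a) := by
      have := S2_bad w hw1 G a
      change 0 ≤ S2 w (fun d e => 4 - 9 * (if badc (ac G a d) (ac G a e) (ac G d e)
        then (1 : ℝ) else 0))
      rw [this]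
      linarith [hbv a]
    have h3 : 0 ≤ S2 w (fun b c => (g (f a b c) : ℝ)) :=
      S2_nonneg w hw0 _ fun b c => Nat.cast_nonneg _
    have h4 := mul_nonneg h3 h2
    have h5 := mul_nonneg h2 h3
    linarith
  calc (off : ℝ) = ∑ a, w a * off := by rw [← Finset.sum_mul, hw1, one_mul]
    _ ≤ _ := Finset.sum_le_sum fun a _ => hle a

end Pool.Agent.W613.FF
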